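import Pool.Agent.Helper21.EM.FinalH

/-!
# MP_4e1cf2_ag: Hodge structures with commutative endomorphisms

`S` is a system of realizations (`AHS.System`): the polarized rational Hodge structure `V` of `X`,
the Hodge structures `W σ` of the conjugates `X ^ σ`, and the de Rham and `ℓ`-adic isomorphisms
`M σ`, `E σ ℓ`. `V` is pure of weight `w`, its endomorphisms commute with each other, and every
factor of `V` has an isolated Hodge number one, or real multiplication and isolated Hodge numbers as
in `MT.WideC` in an isotypic block (`EH.Ada`, `EH.GoodH`). The polarization is absolute Hodge at the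
automorphism `σ` of `ℂ` (known for varieties), and so are the endomorphisms of `V`.
-/

open Matrix Pool.Agent.Helper82.AHS Pool.Agent.Helper21.TH EH

namespace Pool.Agent.Results.MP_4e1cf2_ag.CommutativeEndomorphisms

/-- The Hodge tensors of all types are weakly absolute at `σ`, compatibly in all realizations; and if
all the endomorphisms are self-adjoint for the polarization, then a Hodge tensor of type `(m, n)` is
absolute Hodge at `σ`, if the weight is odd or all the isotypic blocks have more than `m + n`
elements. -/
theorem result {r : ℕ} (S : System r) (w : ℤ) (c w' : ℕ) (h : Fin r → ℕ) (P : GL (Fin r) ℂ)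
    (x : Matrix (Fin r) (Fin r) ℚ → Fin r → ℂ) (hA : Ada S.V w c w' h P x)
    (hG : GoodH S.V S.Q w' h x) (σ : ℂ ≃+* ℂ) (hQ : S.AbsAt σ (polT S.Q))
    (hE : ∀ X, IsEnd S.V X → S.AbsAt σ (t11 X)) :
    S.Weak σ ∧
    ((∀ X, IsEnd S.V X → EM.adj S.Q X = X) → ∀ (m n : ℕ) (t : T r m n ℚ), S.V.Hodge t →
      (m = n ∨ w ≠ 0 ∨ S.AbsAt σ (formT S.Q)) → (Odd w ∨ ∀ k, m + n < bsz S.V x k) →
      S.AbsAt σ t) :=
  finh_final r S w c w' h P x hA hG σ hQ hE

end Pool.Agent.Results.MP_4e1cf2_ag.CommutativeEndomorphisms
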