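import Pool.Agent.Helper82.AHS.ThmB

/-!
# MP_4e1cf2_ag: absolute Hodge classes on the powers of a variety

`S` is a system of realizations (`AHS.System`): the polarized rational Hodge structure `V` of `X`,
the Hodge structures `W σ` of the conjugates `X ^ σ`, and the de Rham and `ℓ`-adic isomorphisms
`M σ`, `E σ ℓ`. With `V = ⊕ H ^ {2 p} (X, ℚ (p)) ⊕ ⊕ H ^ {2 p + 1} (X, ℚ (p))` the Hodge tensors of
type `(m, n)` are the Hodge classes on `X ^ (m + n)`, so that types `(m, n)` with `m, n ≤ 2` live on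
`X ^ 4`, and all types together are the Hodge classes on all powers of `X`.
-/

open Pool.Agent.Helper82.AHS

namespace Pool.Agent.Results.MP_4e1cf2_ag.FourthPower

/-- One Hodge class `π` on `X ^ 4` decides, automorphism by automorphism, whether the Hodge classes
on all powers of `X` are weakly absolute; if there is no part of type IV and the Hodge classes on
`X ^ 4` are absolute at `σ`, then the conjugates of all Hodge classes on all powers are combinations
of Hodge classes with algebraic coefficients; and if the Hodge tensors with `m, n ≤ d` are absolute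
at `σ` and cut out the Mumford-Tate group, all Hodge tensors are absolute at `σ`. -/
theorem result {r : ℕ} (S : System r) :
    (∃ d, 2 ≤ d ∧ S.V.CutOut d) ∧
    ∃ π : T r 2 2 ℚ, S.V.IsLieProj π ∧ S.V.Hodge π ∧ ∀ σ : ℂ ≃+* ℂ,
      (S.AbsAt σ π ↔ S.Weak σ) ∧
      ((∀ i, S.V.p i + S.V.q i = 0 ∨ S.V.p i + S.V.q i = 1) → S.V.CentreSelfAdjoint S.Q →
        S.UpTo σ 2 → ∀ m n, ∀ t : T r m n ℚ, S.V.Hodge t →
          AlgComb (S.M σ) t {t' | (S.W σ).Hodge t'} ∧
          ∀ ℓ : Nat.Primes, AlgComb (S.E σ ℓ) t {t' | (S.W σ).Hodge t'}) ∧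
      ∀ d, 2 ≤ d → S.V.CutOut d → S.UpTo σ d →
        ∀ m n, ∀ t : T r m n ℚ, S.V.Hodge t → S.AbsAt σ t := by
  obtain ⟨π, h1, h2, h3⟩ := thmA S
  exact ⟨exists_cutOut S.V, π, h1, h2, fun σ => ⟨h3 σ,
    fun hw hc hAH m n t ht => thmB S hw hc σ hAH m n t ht,
    fun d hd hcut hAH => full_of S hd hcut hAH⟩⟩

end Pool.Agent.Results.MP_4e1cf2_ag.FourthPower
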