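import Pool.Agent.Helper21.D2.FinalJ

/-!
# MP_4e1cf2_ag: Hodge structures with isolated Hodge numbers

`S` is a system of realizations (`AHS.System`): the polarized rational Hodge structure `V` of `X`,
the Hodge structures `W σ` of the conjugates `X ^ σ`, and the de Rham and `ℓ`-adic isomorphisms
`M σ`, `E σ ℓ`. The polarization is absolute Hodge (`hQ`, known for varieties). `V` is pure, has
endomorphisms `ℚ` (or is irreducible with middle Hodge number one), and its Hodge numbers are as in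
`TH.WideH`. For weight two and Hodge numbers `(a, b, a)`: `a = 1` and `b > 0`, or
`3 a ^ 2 + a < 2 b` and `(a, b) ≠ (2, 8)`, or `b > 0` and `b ^ 2 + b + 3 ≤ 2 a`, or `a ≥ 2` and
`b = 1, 2`.
-/

open Matrix Pool.Agent.Helper82.AHS Pool.Agent.Helper21.TH

namespace Pool.Agent.Results.MP_4e1cf2_ag.IsolatedHodgeNumbers

/-- Let `t` be a Hodge tensor of type `(m, n)`, and `σ` an automorphism of `ℂ`. (1) `t` is absolute
Hodge at `σ` if the weight is odd, if `m + n` is less than the dimension `r` of `V`, or if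
`m + n + r` is odd. (2), (3) In all cases, the de Rham conjugate of `t` is a Hodge tensor of `W σ`,
and every `ℓ`-adic conjugate of `t` is a Hodge tensor of `W σ`. (4) If one Hodge tensor which is not
fixed by some rational isometry is absolute Hodge at `σ`, then all Hodge tensors are. -/
theorem result {r : ℕ} (S : System r) (w : ℤ) (hT : WideH S.V w)
    (hA : AIrr S.V w) (σ : ℂ ≃+* ℂ) (hQ : S.AbsAt σ (polT S.Q)) (m n : ℕ) (t : T r m n ℚ)
    (ht : S.V.Hodge t) (hmn : m = n ∨ w ≠ 0 ∨ S.AbsAt σ (formT S.Q)) :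
    (Odd w ∨ m + n < r ∨ Odd (m + n + r) → S.AbsAt σ t) ∧
    (∃ t' : T r m n ℚ, (S.W σ).Hodge t' ∧ up ℂ t' = act (S.M σ) (up ℂ t)) ∧
    (∀ ℓ : Nat.Primes, ∃ t' : T r m n ℚ, (S.W σ).Hodge t' ∧
      up (@Padic ℓ ⟨ℓ.2⟩) t' = act (S.E σ ℓ) (up (@Padic ℓ ⟨ℓ.2⟩) t)) ∧
    (S.AbsAt σ t → (∃ g : GL (Fin r) ℚ, (g : Matrix (Fin r) (Fin r) ℚ)ᵀ * S.Q *
        (g : Matrix (Fin r) (Fin r) ℚ) = S.Q ∧ act g t ≠ t) →
      ∀ (m' n' : ℕ) (t' : T r m' n' ℚ), S.V.Hodge t' →
        (m' = n' ∨ w ≠ 0 ∨ S.AbsAt σ (formT S.Q)) → S.AbsAt σ t') :=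
  final_isol S w hT hA σ hQ m n t ht hmn

end Pool.Agent.Results.MP_4e1cf2_ag.IsolatedHodgeNumbers
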