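import Pool.Agent.Helper6.HD.All

/-!
# MP_4e1cf2_ag: Tate classes and absolute Hodge classes on motives with maximally unipotent
monodromy

`M` is a polarised pure motive of weight `w > 0` over a number field `F` (`MT.PMot`), with maximally
unipotent monodromy at some place (`MT.PMot.Mum`) and with a large image in the sense of
`MT.PMot.Large`. The motivic classes of `M` are the absolute Hodge classes; `HD.Closed M` says that
they are closed in the Tannakian sense.
-/

open NumberField

namespace Pool.Agent.Results.MP_4e1cf2_ag.TateImpliesAbsoluteHodge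

/-- A rational class in a tensor space `T^(a,b)` of `M` which is a Tate class for the one prime `l`
(its `l`-adic component is invariant under an open subgroup of the Galois group) is a Hodge class,
and its components at all primes are invariant under the Galois group. It is a Tate class for `l` if
and only if it is absolute Hodge. -/
theorem result (F : Type) [Field F] [NumberField F] (S : Finset ℕ) (hS : ∀ p ∈ S, p.Prime)
    (n w : ℕ) (hw : 0 < w) (h : Fin n → ℕ) (M : MT.PMot F S n w h) (l : ℕ) [Fact l.Prime]
    (p₀ : ℕ) (hp₀ : p₀.Prime) (hM : M.Mum l p₀) (hL : M.Large l) :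
    (∀ (a b : ℕ) (t : MT.Tensor n a b ℚ), HD.IsTate M l t → M.IsHodge t ∧
      ∀ (l' : ℕ) [Fact l'.Prime] (g : MU.Gal F),
        MT.act (M.ρ l' g) (t.base ℚ_[l']) = t.base ℚ_[l']) ∧
    (HD.Closed M → ∀ (a b : ℕ) (t : MT.Tensor n a b ℚ), t ∈ M.mot a b ↔ HD.IsTate M l t) := by
  obtain ⟨h1, h2, -⟩ := HD.all F S hS n w hw h M l p₀ hp₀ hM hL
  exact ⟨h1, h2⟩

end Pool.Agent.Results.MP_4e1cf2_ag.TateImpliesAbsoluteHodge
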